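import Mathlib
import Pool.Agent.N610.EX.FIN
import Pool.Agent.N610.EX.PIG
import Pool.Agent.N610.EX.CORE

/-!
# Extremal clusters of primes are homogeneous

`ρ(y)` is the largest number of primes in infinitely many windows `(x, x + y]`. The structure of the
late windows with the maximal number `ρ(Y)` of primes: at all but a bounded number of the dyadic scales
`2 ^ i` between `y ^ θ` and `y`, every late window of length `Y = 2 ^ (i + b)` with `ρ(Y)` primes has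
almost all of its primes equidistributed: for all but `ε Y` of the integers `n` of the window the number
of primes in `(n, n + h]` is `(1 ± ε) ρ(Y) h / Y` for ALL `2 ^ i ≤ h ≤ K 2 ^ i` simultaneously.
-/

set_option autoImplicit false

open Finset Filter Topology

namespace Pool.Agent.Results.MP_5046ca_nt.ExtremalClusters

/-- `ρ(y)`, the limsup of `π(x + y) - π(x)` for `x → ∞` -/
noncomputable def rho (y : ℕ) : ℕ :=
  limsup (fun x : ℕ => Nat.primeCounting (x + y) - Nat.primeCounting x) atTop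

/-- `v* = limsup ρ(y) log y / y` -/
noncomputable def vstar : ℝ := limsup (fun y : ℕ => (rho y : ℝ) * Real.log y / y) atTop

/-- Q1: `π(y) - ρ(y) → ∞` -/
def Q1 : Prop := Tendsto (fun y : ℕ => (Nat.primeCounting y : ℤ) - rho y) atTop atTop

open Classical in
/-- For all large `x` with `π(x + Y) - π(x) = ρ(Y)`, all but at most `ε Y` of the integers `n` in
`(x, x + Y]` satisfy `|π(n + h) - π(n) - ρ(Y) h / Y| ≤ ε ρ(Y) h / Y` for ALL integers
`H ≤ h ≤ K H`. -/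
def Homogeneous (K ε : ℝ) (H Y : ℕ) : Prop := ∀ᶠ x : ℕ in atTop,
  Nat.primeCounting (x + Y) = Nat.primeCounting x + rho Y →
    (((Ioc x (x + Y)).filter (fun n : ℕ => ¬ ∀ h : ℕ, H ≤ h → (h : ℝ) ≤ K * H →
      |((Nat.primeCounting (n + h) : ℝ) - Nat.primeCounting n) - (rho Y : ℝ) * h / Y| ≤
        ε * ((rho Y : ℝ) * h / Y))).card : ℝ) ≤ ε * Y

/-- (1) For all `K ≥ 1`, `ε > 0` there is `b₀` such that for all `b ≥ b₀` and all `θ, c > 0` there is
`M` such that for all large `y` with `ρ(y) ≥ c y / log y` at most `M` of the integers `i` with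
`y ^ θ ≤ 2 ^ i ≤ y` are such that `Homogeneous K ε (2 ^ i) (2 ^ (i + b))` fails.
(2) If `v* > 0`, then for all `K ≥ 1`, `ε > 0` there is `b₀` such that for all `b ≥ b₀` and `η > 0`
there are infinitely many `i` such that `Y = 2 ^ (i + b)` satisfies `|ρ(Y) log Y / Y - v*| ≤ η` and
`Homogeneous K ε (2 ^ i) Y`.
(3) If Q1 fails, then `v* ≥ 1`; if `v* > 1`, then Q1 fails. -/
theorem result :
    (∀ K ε : ℝ, 1 ≤ K → 0 < ε → ∃ b₀ : ℕ, ∀ b : ℕ, b₀ ≤ b → ∀ θ c : ℝ, 0 < θ → 0 < c →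
      ∃ M : ℕ, ∀ᶠ y : ℕ in atTop, c * y / Real.log y ≤ rho y → ∀ I : Finset ℕ,
        (∀ i ∈ I, (y : ℝ) ^ θ ≤ 2 ^ i ∧ 2 ^ i ≤ y ∧ ¬ Homogeneous K ε (2 ^ i) (2 ^ (i + b))) →
          I.card ≤ M) ∧
    (0 < vstar → ∀ K ε : ℝ, 1 ≤ K → 0 < ε → ∃ b₀ : ℕ, ∀ b : ℕ, b₀ ≤ b → ∀ η : ℝ, 0 < η →
      ∃ᶠ i : ℕ in atTop,
        |(rho (2 ^ (i + b)) : ℝ) * Real.log ((2 ^ (i + b) : ℕ) : ℝ) / ((2 ^ (i + b) : ℕ) : ℝ)
          - vstar| ≤ η ∧ Homogeneous K ε (2 ^ i) (2 ^ (i + b))) ∧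
    ((¬ Q1 → 1 ≤ vstar) ∧ (1 < vstar → ¬ Q1)) :=
  ⟨fun K ε hK hε => Pool.Agent.N610.EX.FIN.one Pool.Agent.N610.EX.t_CORE
      Pool.Agent.N610.EX.t_PIG K ε hK hε,
    fun hv K ε hK hε => Pool.Agent.N610.EX.FIN.two' Pool.Agent.N610.EX.t_CORE
      Pool.Agent.N610.EX.t_PIG hv K ε hK hε,
    Pool.Agent.N610.EX.FIN.three⟩

end Pool.Agent.Results.MP_5046ca_nt.ExtremalClusters
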