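import Mathlib
import Pool.Agent.N732.CG.Main

set_option autoImplicit false

/-!
# The gap between `π(y)` and the Hardy–Littlewood function in sieved random models of the primes

The question is whether `π(y) - ρ(y) → ∞`, `ρ(y) = limsup (π(x + y) - π(x))`.  We answer it
(negatively) in EVERY sequential random model of the primes with sieving by all small primes: the
integers are decided one after the other, an integer `n` of the dyadic block `[2^j, 2^(j+1))` can be
chosen only if it is coprime to `R j`, where `R j` divides `R (j + 1)`, every prime divides some `R j`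
and `log (R j) = o(j)`, and the conditional probability of choosing `n`, coprime to `R j`, given the
past, is `(R j / φ(R j)) (1 + O(1 / log n)) / log n`.  No independence is assumed.
-/

open MeasureTheory Filter
open scoped Topology

namespace Pool.Agent.Results.MP_5046ca_nt.SievedModels

/-- the number of elements of `S` in `(x, x + y]` -/
noncomputable def cnt (S : Set ℕ) (x y : ℕ) : ℕ := {n : ℕ | x < n ∧ n ≤ x + y ∧ n ∈ S}.ncard

/-- the Hardy–Littlewood function of a set `S` of natural numbers -/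
noncomputable def rho (S : Set ℕ) (y : ℕ) : ℕ := limsup (fun x => cnt S x y) atTop

/-- `H` misses a residue class modulo every prime -/
def Admissible (H : Finset ℕ) : Prop := ∀ p : ℕ, p.Prime → ∃ r : ℕ, ∀ h ∈ H, ¬ h ≡ r [MOD p]

/-- the largest size of an admissible subset of `{1, ..., y}` -/
noncomputable def rhoStar (y : ℕ) : ℕ :=
  sSup {k : ℕ | ∃ H : Finset ℕ, H ⊆ Finset.Icc 1 y ∧ Admissible H ∧ H.card = k}

/-- the second order term `α y logloglog y / (log y) ^ 2` -/
noncomputable def extra (α : ℝ) (y : ℕ) : ℝ :=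
  α * ((y : ℝ) * Real.log (Real.log (Real.log y)) / Real.log y ^ 2)

end Pool.Agent.Results.MP_5046ca_nt.SievedModels

open Pool.Agent.Results.MP_5046ca_nt.SievedModels

/-- Let `A n` be the event that `n` belongs to a random set `S`, adapted to a filtration `ℱ`, with the
sieving moduli `R` and the conditional probabilities as in the header.  Then almost surely:
(1) for every `y` the upper limit `ρ_S(y)` of the number of elements of `S` in `(x, x + y]` is the
largest size `ρ*(y)` of an admissible subset of `{1, ..., y}`, and it is attained for at least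
`X ^ (1 - ε)` of the `x < X`; (2) for every `α < 1 / 2` and all large `y`,
`ρ_S(y) ≥ π(y) + α y logloglog y / (log y) ^ 2` and, with the number `π_S(y)` of elements of `S` up to
`y`, `ρ_S(y) ≥ π_S(y) + α y logloglog y / (log y) ^ 2`; (3) so `π(y) - ρ_S(y) → -∞` and
`π_S(y) - ρ_S(y) → -∞`. -/
theorem Pool.Agent.Results.MP_5046ca_nt.SievedModels.result
    {Ω : Type} [mΩ : MeasurableSpace Ω] (μ : Measure Ω) [IsProbabilityMeasure μ]
    (ℱ : Filtration ℕ mΩ) (A : ℕ → Set Ω) (hA : ∀ n, MeasurableSet[ℱ n] (A n))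
    (R : ℕ → ℕ) (hR : ∀ j, 0 < R j) (hdvd : ∀ j, R j ∣ R (j + 1))
    (hprime : ∀ p : ℕ, p.Prime → ∃ j, p ∣ R j)
    (hgrowth : Tendsto (fun j : ℕ => Real.log (R j) / j) atTop (𝓝 0))
    (hcop : ∀ n, ¬ Nat.Coprime n (R (Nat.log 2 n)) → A n = ∅)
    (hd : ∀ᵐ ω ∂μ, ∃ C : ℝ, ∀ᶠ n : ℕ in atTop, Nat.Coprime (n + 1) (R (Nat.log 2 (n + 1))) →
      |(μ[(A (n + 1)).indicator (fun _ => (1 : ℝ)) | ℱ n]) ω * Real.log ((n : ℝ) + 1) *
        ((Nat.totient (R (Nat.log 2 (n + 1))) : ℝ) / R (Nat.log 2 (n + 1))) - 1| ≤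
        C / Real.log ((n : ℝ) + 1)) :
    ∀ᵐ ω ∂μ,
      (∀ y : ℕ, rho {n : ℕ | ω ∈ A n} y = rhoStar y ∧
        ∀ ε : ℝ, 0 < ε → ∀ᶠ X : ℕ in atTop,
          (X : ℝ) ^ (1 - ε) ≤ ({x : ℕ | x < X ∧ cnt {n : ℕ | ω ∈ A n} x y = rhoStar y}.ncard : ℝ)) ∧
      (∀ α : ℝ, α < 1 / 2 → ∀ᶠ y : ℕ in atTop,
        (Nat.primeCounting y : ℝ) + extra α y ≤ rho {n : ℕ | ω ∈ A n} y ∧
        (cnt {n : ℕ | ω ∈ A n} 0 y : ℝ) + extra α y ≤ rho {n : ℕ | ω ∈ A n} y) ∧
      Tendsto (fun y : ℕ => (Nat.primeCounting y : ℤ) - rho {n : ℕ | ω ∈ A n} y) atTop atBot ∧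
      Tendsto (fun y : ℕ => (cnt {n : ℕ | ω ∈ A n} 0 y : ℤ) - rho {n : ℕ | ω ∈ A n} y) atTop atBot := by
  classical
  have hlow : ∀ᵐ ω ∂μ, ∃ c : ℝ, 0 < c ∧ ∀ᶠ n : ℕ in atTop, Nat.Coprime (n + 1) (R (Nat.log 2 (n + 1))) →
      c / Real.log ((n + 1 : ℕ) : ℝ) ≤ Pool.Agent.R528.RM.dens μ ℱ A n ω := by
    filter_upwards [hd] with ω hω
    obtain ⟨C, hC⟩ := hω
    refine ⟨1 / 2, by norm_num, ?_⟩
    have hlog : Tendsto (fun n : ℕ => Real.log ((n : ℝ) + 1)) atTop atTop :=
      Real.tendsto_log_atTop.comp (tendsto_atTop_add_const_right _ _ tendsto_natCast_atTop_atTop)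
    filter_upwards [hC, hlog.eventually_ge_atTop (2 * |C| + 1)] with n hn hn2 hc
    have h1 := (abs_le.1 (hn hc)).1
    set q : ℕ := R (Nat.log 2 (n + 1)) with hq
    have hq0 : (0 : ℝ) < q := by exact_mod_cast hR _
    have hφ0 : (0 : ℝ) < Nat.totient q := by exact_mod_cast Nat.totient_pos.2 (hR _)
    have hL : 0 < Real.log ((n : ℝ) + 1) := by
      have := abs_nonneg C
      linarith
    have h2 : C / Real.log ((n : ℝ) + 1) ≤ 1 / 2 := by
      rw [div_le_iff₀ hL]
      linarith [le_abs_self C]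
    have h3 : (1 / 2 : ℝ) ≤ (μ[(A (n + 1)).indicator (fun _ => (1 : ℝ)) | ℱ n]) ω * Real.log ((n : ℝ) + 1) *
        ((Nat.totient q : ℝ) / q) := by linarith
    have h4 : (Nat.totient q : ℝ) / q ≤ 1 := by
      rw [div_le_one hq0]
      exact_mod_cast Nat.totient_le q
    have h5 : 0 < (Nat.totient q : ℝ) / q := by positivity
    push_cast
    rw [div_le_iff₀ hL]
    show (1 / 2 : ℝ) ≤ (μ[(A (n + 1)).indicator (fun _ => (1 : ℝ)) | ℱ n]) ω * Real.log ((n : ℝ) + 1)
    set t : ℝ := (μ[(A (n + 1)).indicator (fun _ => (1 : ℝ)) | ℱ n]) ω * Real.log ((n : ℝ) + 1) with ht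
    have h6 : 0 < t := by
      by_contra hcon
      push Not at hcon
      have : t * ((Nat.totient q : ℝ) / q) ≤ 0 := mul_nonpos_of_nonpos_of_nonneg hcon h5.le
      linarith
    nlinarith
  have htup : ∀ᵐ ω ∂μ, ∀ H : Finset ℕ, (∀ h ∈ H, 1 ≤ h) → Pool.Agent.N732.CG.Adm H →
      Pool.Agent.N732.CG.LC (fun x => ∀ h ∈ H, ω ∈ A (x + h)) := by
    rw [ae_all_iff]
    intro H
    by_cases h1 : (∀ h ∈ H, 1 ≤ h) ∧ Pool.Agent.N732.CG.Adm H
    · filter_upwards [Pool.Agent.N732.CG.tuples (μ := μ) hA (fun n => R (Nat.log 2 n)) (fun n => hR _)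
        (fun m n hmn => Pool.Agent.N732.CG.Q_mono hdvd m n hmn)
        (fun ε hε => Pool.Agent.N732.CG.Q_growth hR hgrowth ε hε) hlow H h1.1 h1.2] with ω hω _ _
      exact hω
    · exact Eventually.of_forall fun ω h2 h3 => absurd ⟨h2, h3⟩ h1
  filter_upwards [htup, Pool.Agent.N732.CG.count_upper (μ := μ) hA hR hgrowth hcop hd] with ω h1 h2
  set S : Set ℕ := {n : ℕ | ω ∈ A n} with hS
  have hScop : ∀ n ∈ S, Nat.Coprime n (R (Nat.log 2 n)) := by
    intro n hn
    by_contra hc
    have h3 : ω ∈ A n := hn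
    rw [hcop n hc] at h3
    exact h3
  have hprime' : ∀ p : ℕ, p.Prime → ∀ᶠ n : ℕ in atTop, p ∣ R (Nat.log 2 n) := by
    intro p hp
    obtain ⟨j, hj⟩ := hprime p hp
    filter_upwards [eventually_ge_atTop (2 ^ j)] with n hn
    have := Pool.Agent.N732.CG.Q_mono hdvd (2 ^ j) n hn
    rw [Nat.log_pow (by norm_num)] at this
    exact hj.trans this
  have hle : ∀ y, ∀ᶠ x in atTop, cnt S x y ≤ rhoStar y := fun y =>
    Pool.Agent.N732.CG.cnt_le (fun n => R (Nat.log 2 n)) hprime' hScop y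
  have hLC : ∀ y, Pool.Agent.N732.CG.LC (fun x => cnt S x y = rhoStar y) := by
    intro y
    obtain ⟨H, hH1, hH2, hH3⟩ := Pool.Agent.N732.CG.exists_rhoStar y
    have h3 := h1 H (fun h hh => (Finset.mem_Icc.1 (hH1 hh)).1) hH2
    refine h3.mono ?_
    filter_upwards [hle y] with x hx hmem
    apply le_antisymm hx
    have h4 := Pool.Agent.N732.CG.cnt_ge (S := S) (x := x) hH1 hmem
    rw [hH3] at h4
    exact h4
  have hrho : ∀ y, rho S y = rhoStar y := fun y =>
    Pool.Agent.N732.CG.limsup_eq (hle y) (hLC y).frequently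
  have hHR : ∀ α : ℝ, α < 1 / 2 → ∀ᶠ y : ℕ in atTop, (Nat.primeCounting y : ℝ) + extra α y ≤ rhoStar y :=
    fun α hα => Pool.Agent.N732.CG.rhoStar_ge hα
  -- `logloglog y` tends to infinity
  have hlll : Tendsto (fun y : ℕ => Real.log (Real.log (Real.log (y : ℝ)))) atTop atTop :=
    Real.tendsto_log_atTop.comp (Real.tendsto_log_atTop.comp
      (Real.tendsto_log_atTop.comp tendsto_natCast_atTop_atTop))
  obtain ⟨C1, hC1, hpnt⟩ := Pool.Agent.H381R2.HR.Asm.pnt2
  obtain ⟨C', hC'⟩ := h2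
  have hmodel : ∀ α : ℝ, α < 1 / 2 → ∀ᶠ y : ℕ in atTop, (cnt S 0 y : ℝ) + extra α y ≤ rhoStar y := by
    intro α hα
    obtain ⟨β, hβ1, hβ2⟩ := exists_between hα
    filter_upwards [hHR β hβ2, hC', hlll.eventually_ge_atTop ((C1 + |C'|) / (β - α)), eventually_ge_atTop 3]
      with y g1 g2 g3 g4
    have hy0 : (0 : ℝ) < y := by exact_mod_cast (by omega : 0 < y)
    have hL : 0 < Real.log (y : ℝ) := Real.log_pos (by exact_mod_cast (by omega : 1 < y))
    have g5 := (abs_le.1 (hpnt y (by exact_mod_cast (by omega : 2 ≤ y)))).1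
    rw [Nat.floor_natCast] at g5
    set w : ℝ := (y : ℝ) / Real.log y ^ 2 with hw
    have hw0 : 0 < w := by positivity
    have e1 : ∀ α : ℝ, extra α y = α * Real.log (Real.log (Real.log (y : ℝ))) * w := fun α => by
      unfold extra
      rw [hw]; ring
    have hC2 : C' * w ≤ |C'| * w := mul_le_mul_of_nonneg_right (le_abs_self _) hw0.le
    rw [div_le_iff₀ (by linarith)] at g3
    have g6 : (C1 + |C'|) * w ≤ Real.log (Real.log (Real.log (y : ℝ))) * (β - α) * w :=
      mul_le_mul_of_nonneg_right g3 hw0.le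
    rw [e1] at g1 ⊢
    have g2' : (cnt S 0 y : ℝ) ≤ (y : ℝ) / Real.log y + C' * w := g2
    have e2 : (C1 + |C'|) * w = C1 * w + |C'| * w := by ring
    have e3 : Real.log (Real.log (Real.log (y : ℝ))) * (β - α) * w =
        β * Real.log (Real.log (Real.log (y : ℝ))) * w - α * Real.log (Real.log (Real.log (y : ℝ))) * w := by ring
    rw [e2, e3] at g6
    linarith
  -- divergence
  have hdiv : ∀ f : ℕ → ℕ, (∀ᶠ y : ℕ in atTop, (f y : ℝ) + extra (1 / 4) y ≤ rhoStar y) →
      Tendsto (fun y : ℕ => (f y : ℤ) - rhoStar y) atTop atBot := by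
    intro f hf
    have h5 : Tendsto (fun y : ℕ => extra (1 / 4) y) atTop atTop := by
      have h6 : ∀ᶠ y : ℕ in atTop, Real.log (Real.log (Real.log (y : ℝ))) ≤ extra (1 / 4) y := by
        have g1 := (Real.isLittleO_pow_log_id_atTop (n := 2)).def (show (0 : ℝ) < 1 / 4 by norm_num)
        filter_upwards [tendsto_natCast_atTop_atTop.eventually g1, hlll.eventually_ge_atTop 0,
          eventually_ge_atTop 3] with y g1 g2 g3
        have hy0 : (0 : ℝ) < y := by exact_mod_cast (by omega : 0 < y)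
        have hL : 0 < Real.log (y : ℝ) := Real.log_pos (by exact_mod_cast (by omega : 1 < y))
        rw [Real.norm_of_nonneg (by positivity), id, Real.norm_of_nonneg hy0.le] at g1
        unfold extra
        rw [mul_div_assoc', le_div_iff₀ (by positivity)]
        nlinarith
      exact tendsto_atTop_mono' _ h6 hlll
    rw [tendsto_atBot]
    intro b
    filter_upwards [hf, h5.eventually_ge_atTop (-(b : ℝ))] with y g1 g2
    have g3 : (f y : ℝ) - b ≤ rhoStar y := by linarith
    have g4 : (f y : ℤ) - b ≤ rhoStar y := by exact_mod_cast g3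
    linarith
  refine ⟨fun y => ⟨hrho y, fun ε hε => ?_⟩, fun α hα => ?_, ?_, ?_⟩
  · filter_upwards [hLC y ε hε] with X hX
    have h7 : (((Finset.range X).filter (fun x => cnt S x y = rhoStar y)).card : ℝ) ≤
        ({x : ℕ | x < X ∧ cnt S x y = rhoStar y}.ncard : ℝ) := by
      rw [← Set.ncard_coe_finset]
      refine Nat.cast_le.2 (Set.ncard_le_ncard ?_ ((Set.finite_Iio X).subset fun x hx => hx.1))
      intro x hx
      rw [Finset.mem_coe, Finset.mem_filter, Finset.mem_range] at hx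
      exact hx
    exact le_trans (hX.trans (le_of_eq (by congr!))) h7
  · filter_upwards [hHR α hα, hmodel α hα] with y g1 g2
    rw [hrho y]
    exact ⟨g1, g2⟩
  · simp_rw [hrho]
    exact hdiv Nat.primeCounting (hHR (1 / 4) (by norm_num))
  · simp_rw [hrho]
    exact hdiv (fun y => cnt S 0 y) (hmodel (1 / 4) (by norm_num))
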